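import Mathlib
import Pool.Agent.R747.FrameDefs
import Pool.Agent.R747.FrameConstr

/-!
For finitely many nonzero vectors of 3-space there is a frame such that every membrane spanned by it
realises each of them as a normal direction.
-/

namespace Pool.Agent.Results.MP_873223_gt.ForcedNormals

open Pool.Agent.R747

theorem result (k : ℕ) (ξ : Fin k → Space) (hξ : ∀ i, ξ i ≠ 0) :
    ∃ l : Set Space, IsFrame l ∧
      ∀ H : Plane → Space, IsMembrane l H → ∀ i, RealizesNormal H (ξ i) :=
  exists_frame ξ hξ

end Pool.Agent.Results.MP_873223_gt.ForcedNormals
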